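import Pool.Agent.Y481.Defs
import Pool.Agent.W398.HT.STPE

/-! The iterated integral over the ring is a sum of traces. -/

set_option autoImplicit false

namespace Pool.Agent.Y721.VC

open Finset Filter Topology MeasureTheory
open Pool.Agent.W711.HT Pool.Agent.Y481
open Pool.Agent.W398.HT (Rp_diff Rp_even cos_ne)
open scoped Real

/-! ### linearity of the path integral -/

theorem upp_fsum {ι : Type*} (h : ℝ) (s : Finset ι) (c : ι → ℂ) (f : ι → ℂ → ℂ)
    (h1 : ∀ d ∈ s, IntervalIntegrable (fun y : ℝ => f d (-π + y * Complex.I)) volume 0 h)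
    (h2 : ∀ d ∈ s, IntervalIntegrable (fun x : ℝ => f d (x + h * Complex.I)) volume (-π) π)
    (h3 : ∀ d ∈ s, IntervalIntegrable (fun y : ℝ => f d (π + y * Complex.I)) volume 0 h) :
    upp h (fun ψ => ∑ d ∈ s, c d * f d ψ) = ∑ d ∈ s, c d * upp h (f d) := by
  unfold upp
  rw [intervalIntegral.integral_finsetSum (fun d hd => (h1 d hd).const_mul _),
    intervalIntegral.integral_finsetSum (fun d hd => (h2 d hd).const_mul _),
    intervalIntegral.integral_finsetSum (fun d hd => (h3 d hd).const_mul _),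
    Finset.mul_sum, Finset.mul_sum, ← Finset.sum_add_distrib, ← Finset.sum_sub_distrib]
  apply Finset.sum_congr rfl
  intro d _
  simp only [intervalIntegral.integral_const_mul]
  ring

theorem integrable_path {N : ℕ} (hN : 1 ≤ N) (a : ℤ) {F : ℂ → ℂ} (hF : Continuous F) :
    IntervalIntegrable (fun y : ℝ => Ea a N (-π + y * Complex.I) * F (-π + y * Complex.I) *
      kr N (-π + y * Complex.I)) volume 0 (1 / N) ∧
    IntervalIntegrable (fun x : ℝ => Ea a N (x + ((1 / N : ℝ) : ℂ) * Complex.I) *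
      F (x + ((1 / N : ℝ) : ℂ) * Complex.I) * kr N (x + ((1 / N : ℝ) : ℂ) * Complex.I))
      volume (-π) π ∧
    IntervalIntegrable (fun y : ℝ => Ea a N (π + y * Complex.I) * F (π + y * Complex.I) *
      kr N (π + y * Complex.I)) volume 0 (1 / N) := by
  have hNR : (0 : ℝ) < N := by exact_mod_cast hN
  have hcont : ∀ (g : ℝ → ℂ) (s : Set ℝ), Continuous g →
      (∀ t ∈ s, Complex.cos (N * (g t + π) / 2) ≠ 0) →
      ContinuousOn (fun t => Ea a N (g t) * F (g t) * kr N (g t)) s := by
    intro g s hg hs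
    have c1 : Continuous (fun t => Ea a N (g t)) := by
      unfold Ea
      fun_prop
    have c2 : Continuous (fun t => F (g t)) := hF.comp hg
    apply (c1.mul c2).continuousOn.mul
    unfold kr
    apply ContinuousOn.div
    · fun_prop
    · fun_prop
    · intro t ht
      exact mul_ne_zero (by norm_num) (pow_ne_zero _ (hs t ht))
  refine ⟨?_, ?_, ?_⟩
  · apply ContinuousOn.intervalIntegrable
    apply hcont (fun y : ℝ => -π + y * Complex.I) _ (by fun_prop)
    intro y _
    apply cos_ne
    by_cases hy : y = 0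
    · right
      intro k
      rw [hy]
      have : ((N : ℂ) * ((-π + ((0 : ℝ) : ℂ) * Complex.I) + π) / 2) = 0 := by
        push_cast
        ring
      rw [this, Complex.zero_re]
      intro h0
      have h1 : (2 * (k : ℝ) + 1) = 0 := by
        have := Real.pi_pos
        nlinarith
      have h2 : 2 * k + 1 = 0 := by exact_mod_cast h1
      omega
    · left
      have : ((N : ℂ) * ((-π + (y : ℂ) * Complex.I) + π) / 2) = ((N * y / 2 : ℝ) : ℂ) * Complex.I := by
        push_cast
        ring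
      rw [this]
      simp
      exact ⟨by omega, hy⟩
  · apply ContinuousOn.intervalIntegrable
    apply hcont (fun x : ℝ => x + ((1 / N : ℝ) : ℂ) * Complex.I) _ (by fun_prop)
    intro x _
    apply cos_ne
    left
    have : ((N : ℂ) * ((x + ((1 / N : ℝ) : ℂ) * Complex.I) + π) / 2) =
        ((N * (x + π) / 2 : ℝ) : ℂ) + ((1 / 2 : ℝ) : ℂ) * Complex.I := by
      have : (N : ℂ) ≠ 0 := by exact_mod_cast hNR.ne'
      push_cast
      field_simp
      ring
    rw [this]
    simp
  · apply ContinuousOn.intervalIntegrable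
    apply hcont (fun y : ℝ => π + y * Complex.I) _ (by fun_prop)
    intro y _
    apply cos_ne
    by_cases hy : y = 0
    · right
      intro k
      rw [hy]
      have : ((N : ℂ) * ((π + ((0 : ℝ) : ℂ) * Complex.I) + π) / 2) = ((N * π : ℝ) : ℂ) := by
        push_cast
        ring
      rw [this, Complex.ofReal_re]
      intro h0
      have h1 : (2 * (k : ℝ) + 1) = 2 * N := by
        have := Real.pi_pos
        have h3 : π * (2 * (k : ℝ) + 1 - 2 * N) = 0 := by linarith
        rcases mul_eq_zero.1 h3 with h4 | h4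
        · linarith
        · linarith
      have h2 : 2 * k + 1 = 2 * (N : ℤ) := by exact_mod_cast h1
      omega
    · left
      have : ((N : ℂ) * ((π + (y : ℂ) * Complex.I) + π) / 2) =
          ((N * π : ℝ) : ℂ) + ((N * y / 2 : ℝ) : ℂ) * Complex.I := by
        push_cast
        ring
      rw [this]
      simp
      exact ⟨by omega, hy⟩

theorem rd_cont (N : ℕ) (d : ℤ) : Continuous (rd N d) := by
  unfold rd
  split_ifs
  · exact (Rp_diff N _).continuous.div_const _
  · exact continuous_const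

/-- the path integral of a combination of products `r_d r_e` -/
theorem upp_lin {N : ℕ} (hN : 1 ≤ N) (a : ℤ) {ι : Type*} (s : Finset ι) (c : ι → ℂ)
    (d e : ι → ℤ) :
    upp (1 / N) (fun ψ => Ea a N ψ * (∑ i ∈ s, c i * (rd N (d i) ψ * rd N (e i) ψ)) * kr N ψ) =
      ∑ i ∈ s, c i * cc a N (d i) (e i) := by
  have e1 : (fun ψ => Ea a N ψ * (∑ i ∈ s, c i * (rd N (d i) ψ * rd N (e i) ψ)) * kr N ψ) =
      fun ψ => ∑ i ∈ s, c i * (Ea a N ψ * (rd N (d i) ψ * rd N (e i) ψ) * kr N ψ) := by
    funext ψ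
    rw [Finset.mul_sum, Finset.sum_mul]
    refine Finset.sum_congr rfl fun i _ => ?_
    ring
  rw [e1]
  have hc : ∀ i, Continuous fun ψ => rd N (d i) ψ * rd N (e i) ψ :=
    fun i => (rd_cont N _).mul (rd_cont N _)
  exact upp_fsum (1 / N) s c (fun i ψ => Ea a N ψ * (rd N (d i) ψ * rd N (e i) ψ) * kr N ψ)
    (fun i _ => (integrable_path hN a (hc i)).1)
    (fun i _ => (integrable_path hN a (hc i)).2.1)
    (fun i _ => (integrable_path hN a (hc i)).2.2)

/-! ### products of matrices -/

section Pr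

variable {n : Type*} [Fintype n] [DecidableEq n]

/-- the product `f 0 * f 1 * ⋯ * f (m - 1)` -/
def Pr (f : ℕ → Matrix n n ℂ) : ℕ → Matrix n n ℂ
  | 0 => 1
  | m + 1 => Pr f m * f m

theorem Pr_congr {f g : ℕ → Matrix n n ℂ} (m : ℕ) (h : ∀ j < m, f j = g j) : Pr f m = Pr g m := by
  induction m with
  | zero => rfl
  | succ m ih =>
    simp only [Pr]
    rw [ih (fun j hj => h j (by omega)), h m (by omega)]

theorem Pr_update (f : ℕ → Matrix n n ℂ) (j m : ℕ) (hj : j < m) :
    ∃ P S : Matrix n n ℂ, ∀ M, Pr (Function.update f j M) m = P * M * S := by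
  induction m with
  | zero => omega
  | succ m ih =>
    by_cases hjm : j = m
    · subst hjm
      refine ⟨Pr f j, 1, fun M => ?_⟩
      simp only [Pr]
      rw [Pr_congr (g := f) j (fun i hi => Function.update_of_ne (by omega) _ _),
        Function.update_self, mul_one]
    · obtain ⟨P, S, h⟩ := ih (by omega)
      refine ⟨P, S * f m, fun M => ?_⟩
      simp only [Pr]
      rw [h M, Function.update_of_ne (by omega), mul_assoc]

theorem trace_lin (P S : Matrix n n ℂ) : ∃ Q : n → n → ℂ, ∀ M : Matrix n n ℂ,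
    (P * M * S).trace = ∑ p : n × n, Q p.1 p.2 * M p.1 p.2 := by
  refine ⟨fun x y => (S * P) y x, fun M => ?_⟩
  rw [Matrix.trace_mul_comm, ← mul_assoc, Matrix.trace, Fintype.sum_prod_type_right]
  refine Finset.sum_congr rfl fun y _ => ?_
  rw [Matrix.diag_apply, Matrix.mul_apply]

theorem Pr_list (g : ℤ → Matrix n n ℂ) (l : List ℤ) :
    Pr (fun i => g (l.getD i 0)) l.length = (l.map g).prod := by
  have h : ∀ (f : ℕ → Matrix n n ℂ) (m : ℕ), Pr f m = ((List.range m).map f).prod := by
    intro f m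
    induction m with
    | zero => rfl
    | succ m ih =>
      rw [List.range_succ, List.map_append, List.prod_append, ← ih]
      simp [Pr]
  rw [h]
  congr 1
  apply List.ext_getElem
  · simp
  · intro i h1 h2
    simp at h1 h2
    simp [h1]

end Pr

/-! ### the rank one matrices -/

/-- the rank one matrix of a vertex -/
noncomputable def AM (N : ℕ) (δ : ℤ) (ψ : ℂ) : Matrix (Fin N) (Fin N) ℂ :=
  Matrix.vecMulVec (fun x => rd N ((x : ℕ) - δ) ψ) (fun y => rd N (y : ℕ) ψ)

theorem AM_mul (N : ℕ) (δ : ℤ) (ψ₀ ψ ψ' : ℂ) :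
    Matrix.vecMulVec (fun x : Fin N => rd N ((x : ℕ) - δ) ψ₀) (fun y : Fin N => rd N (y : ℕ) ψ) *
      AM N δ ψ' = kd N δ ψ ψ' • Matrix.vecMulVec (fun x : Fin N => rd N ((x : ℕ) - δ) ψ₀)
        (fun y : Fin N => rd N (y : ℕ) ψ') := by
  ext x y
  rw [Matrix.mul_apply, Matrix.smul_apply, Matrix.vecMulVec_apply, kd, Finset.sum_range,
    smul_eq_mul, Finset.sum_mul]
  refine Finset.sum_congr rfl fun t _ => ?_
  rw [AM, Matrix.vecMulVec_apply, Matrix.vecMulVec_apply]
  ring

theorem Pr_AM (N : ℕ) (δ : ℤ) (ψ : ℕ → ℂ) (m : ℕ) :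
    Pr (fun i => AM N δ (ψ i)) (m + 1) = (∏ j ∈ range m, kd N δ (ψ j) (ψ (j + 1))) •
      Matrix.vecMulVec (fun x : Fin N => rd N ((x : ℕ) - δ) (ψ 0))
        (fun y : Fin N => rd N (y : ℕ) (ψ m)) := by
  induction m with
  | zero =>
    simp only [Pr, one_mul, Finset.range_zero, Finset.prod_empty, one_smul, AM, zero_add]
  | succ m ih =>
    rw [Pr, ih, Matrix.smul_mul, AM_mul, smul_smul, Finset.prod_range_succ]

theorem trace_AM (N : ℕ) (δ : ℤ) (ψ : ℕ → ℂ) (n : ℕ) (hn : 1 ≤ n) :
    (Pr (fun i => AM N δ (ψ i)) n).trace = ∏ j ∈ range n, kd N δ (ψ j) (ψ ((j + 1) % n)) := by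
  obtain ⟨m, rfl⟩ : ∃ m, n = m + 1 := ⟨n - 1, by omega⟩
  rw [Pr_AM, Matrix.trace_smul, Finset.prod_range_succ, Nat.mod_self, smul_eq_mul]
  congr 1
  · refine Finset.prod_congr rfl fun j hj => ?_
    rw [Finset.mem_range] at hj
    rw [Nat.mod_eq_of_lt (by omega)]
  · rw [Matrix.trace, kd, Finset.sum_range]
    refine Finset.sum_congr rfl fun x _ => ?_
    rw [Matrix.diag_apply, Matrix.vecMulVec_apply]
    ring

/-- the factors of the product after integrating the variables number `< j` -/
noncomputable def FB (a : ℕ → ℤ) (N : ℕ) (δ : ℤ) (j : ℕ) (ψ : ℕ → ℂ) (i : ℕ) :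
    Matrix (Fin N) (Fin N) ℂ := if i < j then MM N δ (a i) else AM N δ (ψ i)

theorem itI_eq (a : ℕ → ℤ) (N n : ℕ) (hN : 1 ≤ N) (hn : 1 ≤ n) (j : ℕ) (hj : j ≤ n)
    (ψ : ℕ → ℂ) :
    itI a N j (WN n N) ψ = ∑ δ ∈ Ioo (-(N : ℤ)) N, (Pr (FB a N δ j ψ) n).trace := by
  induction j generalizing ψ with
  | zero =>
    simp only [itI, WN]
    refine Finset.sum_congr rfl fun δ _ => ?_
    rw [← trace_AM N δ ψ n hn]
    congr 1
  | succ j ih =>
    simp only [itI]
    have hup : ∀ (δ : ℤ) (w : ℂ), FB a N δ j (Function.update ψ j w) =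
        Function.update (FB a N δ (j + 1) ψ) j (AM N δ w) := by
      intro δ w
      funext i
      rcases lt_trichotomy i j with h | h | h
      · rw [Function.update_of_ne (by omega)]
        simp only [FB]
        rw [if_pos h, if_pos (by omega)]
      · subst h
        rw [Function.update_self]
        simp only [FB]
        rw [if_neg (by omega), Function.update_self]
      · rw [Function.update_of_ne (by omega)]
        simp only [FB]
        rw [if_neg (by omega), if_neg (by omega), Function.update_of_ne (by omega)]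
    have hQ : ∀ δ : ℤ, ∃ Q : Fin N → Fin N → ℂ, ∀ M : Matrix (Fin N) (Fin N) ℂ,
        (Pr (Function.update (FB a N δ (j + 1) ψ) j M) n).trace =
          ∑ p : Fin N × Fin N, Q p.1 p.2 * M p.1 p.2 := by
      intro δ
      obtain ⟨P, S, h⟩ := Pr_update (FB a N δ (j + 1) ψ) j n (by omega)
      obtain ⟨Q, hQ⟩ := trace_lin P S
      exact ⟨Q, fun M => by rw [h M, hQ M]⟩
    choose Q hQ using hQ
    have e1 : ∀ w, itI a N j (WN n N) (Function.update ψ j w) =
        ∑ q ∈ (Ioo (-(N : ℤ)) N) ×ˢ (Finset.univ : Finset (Fin N × Fin N)),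
          Q q.1 q.2.1 q.2.2 * (rd N ((q.2.1 : ℕ) - q.1) w * rd N (q.2.2 : ℕ) w) := by
      intro w
      rw [ih (by omega), Finset.sum_product]
      refine Finset.sum_congr rfl fun δ _ => ?_
      rw [hup, hQ]
      refine Finset.sum_congr rfl fun p _ => ?_
      rw [AM, Matrix.vecMulVec_apply]
    simp only [e1]
    rw [upp_lin hN (a j) _ (fun q : ℤ × (Fin N × Fin N) => Q q.1 q.2.1 q.2.2)
      (fun q => ((q.2.1 : ℕ) : ℤ) - q.1) (fun q => ((q.2.2 : ℕ) : ℤ)), Finset.sum_product]
    refine Finset.sum_congr rfl fun δ _ => ?_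
    have e2 : FB a N δ (j + 1) ψ = Function.update (FB a N δ (j + 1) ψ) j (MM N δ (a j)) := by
      funext i
      by_cases h : i = j
      · subst h
        rw [Function.update_self]
        simp only [FB]
        rw [if_pos (by omega)]
      · rw [Function.update_of_ne h]
    rw [e2, hQ]
    rfl

theorem t_EXC : S_EXC := by
  intro l N ψ hN hl
  have hn : 1 ≤ l.length := by
    rcases l with _ | ⟨x, l⟩
    · exact absurd rfl hl
    · simp
  rw [itI_eq _ N l.length hN hn l.length le_rfl ψ]
  refine Finset.sum_congr rfl fun δ _ => ?_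
  rw [TT, ← Pr_list]
  congr 1
  apply Pr_congr
  intro j hj
  simp only [FB]
  rw [if_pos hj]

end Pool.Agent.Y721.VC
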